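import Pool.Agent.H71.AkbulutKirby

/-!
# Non-positive immersions are not characterised by the second `L²`-Betti number

The presentation complex `P` of `⟨x, y | x² = y³, x y x = y x y⟩` is contractible. The permutations
`x ↦ (0 1)`, `y ↦ (0 1 2)` of three points satisfy the first relation, and the second relator has
exactly one fixed point. So the 3-sheeted covering of the presentation complex of `⟨x, y | x² = y³⟩`
with one 2-cell attached along the closed lift of the second relator is a compact connected complex
`Y` which is immersed in `P`. It has Euler characteristic `3 - 6 + 4 = 1` and a homomorphism of the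
fundamental group onto an infinite cyclic group. So `P` does not have non-positive immersions; nor do
the complexes `Z ∨ P`, where `Z` is any aspherical complex. The universal covering of `Z ∨ P` is the
universal covering of `Z` with copies of `P` attached at the vertices over a given vertex, so that
`Z ∨ P` is aspherical, and has the same fundamental group and second `L²`-Betti number as `Z`.

The definitions are in `Pool.Agent.H71.TwoComplex`.
-/

set_option autoImplicit false

namespace Pool.Agent.Results.MP_3e52c6_al.ContractiblePieces

open Pool.Agent.H71 TwoComplex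

/-- The complex with one vertex and no edges. -/
@[reducible] def point : TwoComplex where
  V := Unit
  E := Empty
  C := Empty
  src _ := ()
  inv := id
  inv_inv _ := rfl
  inv_ne a := a.elim
  next := 1
  side := id
  closed c := c.elim
  polygon c := c.elim

/-- The identity of the point. -/
@[reducible] def pointMap : Map point point where
  v := id
  e := id
  c := id
  pos _ := True
  src_e _ := rfl
  inv_e _ := rfl
  pos_next _ := Iff.rfl
  of_pos x := x.elim
  of_neg x := x.elim
  inj_cell x := x.elim

theorem pointMap_univ : pointMap.IsUniversalCovering := by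
  refine ⟨⟨⟨fun a => a.elim, fun x => x.elim⟩, Function.surjective_id, fun _ a => a.elim,
    fun _ x => x.elim⟩, ⟨⟨()⟩, fun u w => ⟨[], rfl⟩⟩, ?_⟩
  rintro ⟨⟩ l -
  cases l with
  | nil => exact Homotopic.refl _ rfl
  | cons a l => exact a.elim

theorem point_aspherical : point.Aspherical := by
  refine ⟨point, pointMap, pointMap_univ, fun z _ _ => ?_⟩
  funext f
  induction f using Quotient.inductionOn with | _ c =>
  exact c.elim

theorem point_l2 : point.L2BettiTwoIsZero := by
  refine ⟨point, pointMap, pointMap_univ, fun z _ _ => ?_⟩
  funext f
  induction f using Quotient.inductionOn with | _ c =>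
  exact c.elim

theorem point_compact : point.Compact :=
  ⟨inferInstanceAs (Finite Unit), inferInstanceAs (Finite Empty), inferInstanceAs (Finite Empty)⟩

theorem point_connected : point.Connected := ⟨⟨()⟩, fun _ _ => ⟨[], rfl⟩⟩

/-- (1) It is not true that a compact aspherical complex has non-positive immersions if and only if its
second `L²`-Betti number is zero: there is even a counterexample which is simply connected (hence
contractible), with second `L²`-Betti number zero and without non-positive immersions.

(2) For every compact connected aspherical complex `Z` with second `L²`-Betti number zero there is a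
compact connected aspherical complex `X` with the same fundamental group (more precisely, there is a
map `Z → X` which induces an isomorphism of the fundamental groupoids), with second `L²`-Betti number
zero, which does not have non-positive immersions. -/
theorem result :
    ((∃ X : TwoComplex, X.Compact ∧ X.Connected ∧ X.TrivialPiOne ∧ X.Aspherical ∧
        X.L2BettiTwoIsZero ∧ ¬ X.NonPositiveImmersions) ∧
      ¬ ∀ X : TwoComplex, X.Compact → X.Connected → X.Aspherical →
        (X.NonPositiveImmersions ↔ X.L2BettiTwoIsZero)) ∧
    ∀ Z : TwoComplex, Z.Compact → Z.Connected → Z.Aspherical → Z.L2BettiTwoIsZero →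
      ∃ (X : TwoComplex) (f : Map Z X), f.IsPiOneIso ∧ X.Compact ∧ X.Connected ∧ X.Aspherical ∧
        X.L2BettiTwoIsZero ∧ ¬ X.NonPositiveImmersions := by
  have h1 : ∀ a b : AK.V, a = b := fun _ _ => rfl
  have main : ∀ (Z : TwoComplex) (z₀ : Z.V), Z.Compact → Z.Connected → Z.Aspherical →
      Z.L2BettiTwoIsZero → (attach Z AK fun _ : Unit => z₀).Compact ∧
        (attach Z AK fun _ : Unit => z₀).Connected ∧ (attach Z AK fun _ : Unit => z₀).Aspherical ∧
        (attach Z AK fun _ : Unit => z₀).L2BettiTwoIsZero ∧
        ¬ (attach Z AK fun _ : Unit => z₀).NonPositiveImmersions :=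
    fun Z z₀ h2 h3 h4 h5 => ⟨attach_compact _ h2 ak_compact, attach_connected _ _ _ h3,
      attach_aspherical z₀ h4 ak_trivialPiOne h1 ak_cycle,
      attach_l2 z₀ h5 ak_trivialPiOne h1 ak_cycle, attach_not_npi Z z₀⟩
  have h6 := main point () point_compact point_connected point_aspherical point_l2
  refine ⟨⟨⟨_, h6.1, h6.2.1, attach_trivialPiOne _ _ _ pointMap_univ.2.2 ak_trivialPiOne h1,
    h6.2.2⟩, fun h => h6.2.2.2.2 ((h _ h6.1 h6.2.1 h6.2.2.1).2 h6.2.2.2.1)⟩, ?_⟩
  intro Z h2 h3 h4 h5
  obtain ⟨z₀⟩ := h3.1
  exact ⟨_, inclZ Z AK fun _ => z₀, inclZ_isPiOneIso _ ak_trivialPiOne h1, main Z z₀ h2 h3 h4 h5⟩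

end Pool.Agent.Results.MP_3e52c6_al.ContractiblePieces
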